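import Pool.Agent.Lib.MP_278fbd_co.HR.All

/-!
For every constant `c`: the fractional form for all finite digraphs, the asymptotic form for dense
digraphs, and the form for dense digraphs with few centres are equivalent.
-/

namespace Pool.Agent.Results.MP_278fbd_co.DenseEquivalence

open Pool.Agent.MP_278fbd_co.HR

theorem result (c : ℝ) : (FracHR c ↔ AsymHR c) ∧ (AsymHR c ↔ DenseHR c) :=
  ⟨(p_fin.2.2 c).2, (p_fin.2.2 c).2.symm.trans (p_fin.2.2 c).1⟩

end Pool.Agent.Results.MP_278fbd_co.DenseEquivalence
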