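import Pool.Agent.Lib.MP_278fbd_co.HR.All

/-!
In a large digraph with all out-degrees at least `r ≥ α n` there are more than `(0.72 - ε) r` directed
cycles of bounded length, each with exactly one vertex in a set `X` of bounded size, which are
pairwise disjoint outside `X`.
-/

namespace Pool.Agent.Results.MP_278fbd_co.DenseFewCentres

open Pool.Agent.MP_278fbd_co.HR

theorem result : DenseHR (1 / (2 * Real.log 2)) := p_fin.2.1

end Pool.Agent.Results.MP_278fbd_co.DenseFewCentres
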