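import Pool.Agent.Lib.MP_278fbd_co.HR.All

/-!
The fractional form of the Hoang-Reed conjecture holds for all finite digraphs with the constant
`1 / (2 log 2) = 0.7213…` (the conjecture implies the constant `1`).
-/

namespace Pool.Agent.Results.MP_278fbd_co.Fractional

open Pool.Agent.MP_278fbd_co.HR

theorem result : FracHR (1 / (2 * Real.log 2)) := p_fin.1

end Pool.Agent.Results.MP_278fbd_co.Fractional
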