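import Pool.Agent.Lib.MP_278fbd_co.LOD.Fin

/-!
The Hoang-Reed conjecture for digraphs with large minimum out-degree: if all out-degrees of a
digraph on `n` vertices are at least `r` and `r + 1 ≥ 4 n / 5`, then there are `r` directed cycles
each of which meets the union of the earlier ones in at most one vertex.
-/

set_option autoImplicit false

namespace Pool.Agent.Results.MP_278fbd_co.VeryDense

theorem result :
    ∀ (V : Type) [Fintype V] [Nonempty V] (G : Digraph V),
      (∀ v : V, ¬ G.Adj v v) →
      ∀ r : ℕ, (∀ v : V, r ≤ {w : V | G.Adj v w}.ncard) →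
      4 * Fintype.card V ≤ 5 * (r + 1) →
      ∃ C : Fin r → Set V,
        (∀ l : Fin r, ∃ (k : ℕ) (f : Fin k → V),
            2 ≤ k ∧ Function.Injective f ∧ Set.range f = C l ∧
            ∀ i : Fin k, G.Adj (f i) (f (finRotate k i))) ∧
        ∀ l : Fin r, (C l ∩ ⋃ i : Fin r, ⋃ (_ : i < l), C i).ncard ≤ 1 := by
  intro V _ _ G hG r hr hbig
  exact HRND.final V G hG r hr hbig

end Pool.Agent.Results.MP_278fbd_co.VeryDense
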